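import Pool.Agent.H283.HT.Stm

set_option autoImplicit false

namespace Pool.Agent.H349.HTTR4

open Pool.Agent.H283.HT

theorem TR4_done (hPOS : S_POS) : S_TR4 := by
  intro Q q hQ hq
  obtain ⟨-, tri, -, hm, -, -⟩ := hPOS Q q hQ hq
  have hp : ∀ θ : ℝ, q (θ + Real.pi) = - q θ := hq.anti
  have hπ : 0 < Real.pi := Real.pi_pos
  have hn1 : ∀ u v : P2, det u (-v) = det v u := by
    intro u v
    simp only [det, Prod.fst_neg, Prod.snd_neg]
    ring
  have hn2 : ∀ u v : P2, det (-u) v = det v u := by
    intro u v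
    simp only [det, Prod.fst_neg, Prod.snd_neg]
    ring
  refine ⟨?_, ?_, ?_, ?_⟩
  · intro a b t h1 h2 h3
    have h := tri b t (a + Real.pi) h1 h2 (by linarith)
    rw [hp, hn1, hn1] at h
    linarith
  · intro a b t h1 h2 h3
    have h := tri (b - Real.pi) a t (by linarith) h1 (by linarith)
    rw [hm, hn2, hn2] at h
    linarith
  · intro a b t h1 h2 h3
    have h := tri t b (a + Real.pi) h2 h3 (by linarith)
    rw [hp, hn1, hn1] at h
    linarith
  · intro c d t h1 h2 h3
    have h := tri (d - Real.pi) t c h1 h2 (by linarith)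
    rw [hm, hn2, hn2] at h
    linarith

end Pool.Agent.H349.HTTR4
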