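import Pool.Agent.H979.BK.Stm

/-!
BINOM: total variation of the binomial distribution and its shift (subtask of helper979, proved by helper349).
-/

set_option autoImplicit false

namespace Pool.Agent.H349

open Filter Topology Finset Pool.Agent.H979.BK

namespace BKB

lemma up {M x : ℕ} (h : 2 * x + 1 ≤ M) : ((M.choose x : ℕ) : ℝ) ≤ ((M.choose (x+1) : ℕ) : ℝ) := by
  have h1 := Nat.choose_succ_right_eq M x
  have h2 : x + 1 ≤ M - x := by omega
  have h3 : M.choose x * (x + 1) ≤ M.choose (x+1) * (x+1) := by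
    rw [h1]
    exact Nat.mul_le_mul_left _ h2
  exact_mod_cast Nat.le_of_mul_le_mul_right h3 (Nat.succ_pos x)

lemma down {M x : ℕ} (h : M ≤ 2 * x + 1) : ((M.choose (x+1) : ℕ) : ℝ) ≤ ((M.choose x : ℕ) : ℝ) := by
  have h1 := Nat.choose_succ_right_eq M x
  have h2 : M - x ≤ x + 1 := by omega
  have h3 : M.choose (x+1) * (x+1) ≤ M.choose x * (x + 1) := by
    rw [h1]
    exact Nat.mul_le_mul_left _ h2
  exact_mod_cast Nat.le_of_mul_le_mul_right h3 (Nat.succ_pos x)

lemma cb (h : ℕ) : (Nat.centralBinom h : ℝ)^2 * (2 * h + 1) ≤ 16^h := by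
  induction h with
  | zero => simp
  | succ h ih =>
    have h1 := Nat.succ_mul_centralBinom_succ h
    have h2 : ((h:ℝ) + 1) * (Nat.centralBinom (h+1) : ℝ) =
        2 * (2 * h + 1) * (Nat.centralBinom h : ℝ) := by exact_mod_cast h1
    have h3 : (0:ℝ) < (h:ℝ) + 1 := by positivity
    have h4 : (Nat.centralBinom (h+1) : ℝ) = 2 * (2 * h + 1) * (Nat.centralBinom h : ℝ) / (h + 1) := by
      rw [eq_div_iff h3.ne', ← h2]
      ring
    rw [h4]
    push_cast
    rw [div_pow, div_mul_eq_mul_div, div_le_iff₀ (by positivity)]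
    have h5 : (0:ℝ) ≤ h := Nat.cast_nonneg h
    have h6 : (0:ℝ) ≤ (Nat.centralBinom h : ℝ)^2 * (2 * h + 1) := by positivity
    calc (2 * (2 * (h:ℝ) + 1) * (Nat.centralBinom h : ℝ))^2 * (2 * (h + 1) + 1)
        = (4 * ((2 * h + 1) * (2 * h + 3))) * ((Nat.centralBinom h : ℝ)^2 * (2 * h + 1)) := by ring
      _ ≤ (16 * (h+1)^2) * ((Nat.centralBinom h : ℝ)^2 * (2 * h + 1)) := by
          apply mul_le_mul_of_nonneg_right _ h6
          nlinarith
      _ ≤ (16 * (h+1)^2) * 16^h := by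
          apply mul_le_mul_of_nonneg_left ih (by positivity)
      _ = 16^(h+1) * ((h:ℝ)+1)^2 := by ring

lemma mid (M : ℕ) : ((M.choose (M/2) : ℕ) : ℝ)^2 * (M + 1) ≤ 4^M := by
  rcases Nat.even_or_odd' M with ⟨h, rfl | rfl⟩
  · have h1 := cb h
    rw [Nat.centralBinom_eq_two_mul_choose] at h1
    rw [show 2 * h / 2 = h by omega, pow_mul]
    push_cast
    norm_num
    exact h1
  · have h1 := cb (h+1)
    rw [Nat.centralBinom_eq_two_mul_choose] at h1
    have h2 : (2 * (h+1)).choose (h+1) = 2 * (2 * h + 1).choose h := by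
      rw [show 2 * (h+1) = (2*h+1) + 1 by ring, Nat.choose_succ_succ]
      have h3 : (2*h+1).choose (h+1) = (2*h+1).choose h := by
        apply Nat.choose_symm_of_eq_add
        ring
      rw [show (2*h+1).choose h.succ = (2*h+1).choose (h+1) from rfl, h3]
      ring
    rw [h2] at h1
    push_cast at h1
    rw [show (2 * h + 1) / 2 = h by omega]
    have h6 : (4:ℝ)^(2*h+1) = 4 * 16^h := by
      rw [pow_succ, pow_mul]
      norm_num
      ring
    rw [h6]
    push_cast
    rw [pow_succ (16:ℝ)] at h1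
    have h5 : (0:ℝ) ≤ (((2 * h + 1).choose h : ℕ) : ℝ)^2 := by positivity
    nlinarith

end BKB

open BKB in
/-- BINOM. -/
theorem bk_binom : S_BINOM := by
  intro M
  obtain ⟨a, ha⟩ : ∃ a : ℕ → ℝ, a = fun x => ((M.choose x : ℕ) : ℝ) := ⟨_, rfl⟩
  have hsum : ∑ x ∈ range (M + 2), |((M.choose x : ℕ) : ℝ) -
      (if x = 0 then 0 else ((M.choose (x - 1) : ℕ) : ℝ))| = 2 * a (M/2) := by
    rw [Finset.sum_range_succ']
    have h1 : ∀ x ∈ range (M+1), |((M.choose (x+1) : ℕ) : ℝ) -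
        (if x + 1 = 0 then 0 else ((M.choose (x + 1 - 1) : ℕ) : ℝ))| = |a (x+1) - a x| := by
      intro x _
      rw [if_neg (Nat.succ_ne_zero x), ha]
      rfl
    rw [Finset.sum_congr rfl h1]
    have h2 : |((M.choose 0 : ℕ) : ℝ) - (if (0:ℕ) = 0 then 0 else ((M.choose (0 - 1) : ℕ) : ℝ))| = a 0 := by
      rw [if_pos rfl, ha]
      simp
    rw [h2, ← Finset.sum_range_add_sum_Ico (fun x => |a (x+1) - a x|) (show M/2 ≤ M+1 by omega)]
    have h3 : ∑ x ∈ range (M/2), |a (x+1) - a x| = a (M/2) - a 0 := by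
      rw [← Finset.sum_range_sub]
      apply Finset.sum_congr rfl
      intro x hx
      rw [Finset.mem_range] at hx
      rw [abs_of_nonneg]
      rw [ha]
      exact sub_nonneg.2 (up (by omega))
    have h4 : ∑ x ∈ Finset.Ico (M/2) (M+1), |a (x+1) - a x| = a (M/2) - a (M+1) := by
      rw [← neg_sub (a (M+1)), ← Finset.sum_Ico_sub a (show M/2 ≤ M+1 by omega), ← Finset.sum_neg_distrib]
      apply Finset.sum_congr rfl
      intro x hx
      rw [Finset.mem_Ico] at hx
      rw [abs_of_nonpos]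
      rw [ha]
      exact sub_nonpos.2 (down (by omega))
    have h5 : a (M+1) = 0 := by
      rw [ha]
      simp
    rw [h3, h4, h5]
    ring
  rw [hsum]
  have hm := mid M
  have h0 : (0:ℝ) < (M:ℝ) + 1 := by positivity
  have hs : 0 < √((M:ℝ) + 1) := Real.sqrt_pos.2 h0
  have h6 : a (M/2) * √((M:ℝ)+1) ≤ 2^M := by
    apply le_of_sq_le_sq _ (by positivity)
    rw [mul_pow, Real.sq_sqrt h0.le, ha, ← pow_mul, mul_comm M 2, pow_mul]
    norm_num
    exact hm
  rw [show (2:ℝ)^M * (2 / √((M:ℝ)+1)) = 2 * (2^M / √((M:ℝ)+1)) by ring]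
  apply mul_le_mul_of_nonneg_left _ (by norm_num)
  rw [le_div_iff₀ hs]
  exact h6

end Pool.Agent.H349
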