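import Pool.Agent.H979.FC.Stm

set_option autoImplicit false

/-!
# Continuity and strict monotonicity of the two critical curves
-/

namespace Pool.Agent.H349

open Pool.Agent.H979.FR Pool.Agent.H979.FC
open scoped ENNReal NNReal

/-- the supremum of a set closed downwards -/
theorem fc_real_gen (S : Set ℝ≥0) (hd : ∀ x y, x ≤ y → y ∈ S → x ∈ S) (hz : ∃ z, z ∉ S)
    (h0 : (0 : ℝ≥0) ∈ S) :
    (⨆ (t : ℝ≥0) (_ : t ∈ S), (t : ℝ≥0∞)) = ((sSup S : ℝ≥0) : ℝ≥0∞) ∧
      (∀ x, x < sSup S → x ∈ S) ∧ (∀ x, sSup S < x → x ∉ S) := by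
  obtain ⟨z, hz⟩ := hz
  have hb : BddAbove S := ⟨z, fun y hy => by
    by_contra hcon
    exact hz (hd z y (not_le.1 hcon).le hy)⟩
  refine ⟨(ENNReal.coe_sSup hb).symm, ?_, ?_⟩
  · intro x hx
    obtain ⟨y, hy, hxy⟩ := exists_lt_of_lt_csSup ⟨0, h0⟩ hx
    exact hd x y hxy.le hy
  · intro x hx hxS
    exact absurd (le_csSup hb hxS) (not_le.2 hx)

section

variable (θ : ℝ≥0 → ℝ≥0 → ℝ≥0∞)

/-- the critical lifetime -/
noncomputable def fcT (lam : ℝ≥0) : ℝ≥0 := sSup {t | θ lam t = 0}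

/-- the critical density -/
noncomputable def fcL (t : ℝ≥0) : ℝ≥0 := sSup {lam | θ lam t = 0}

theorem fc_cont (f : ℝ≥0 → ℝ) (h : ∀ x0 : ℝ≥0, 0 < x0 → ∃ C r : ℝ, 0 < r ∧
    ∀ x : ℝ≥0, |(x : ℝ) - x0| < r → |f x - f x0| ≤ C * |(x : ℝ) - x0|) :
    ContinuousOn f (Set.Ioi 0) := by
  intro x0 hx0
  obtain ⟨C, r, hr, hC⟩ := h x0 hx0
  refine ContinuousAt.continuousWithinAt (continuousAt_of_locally_lipschitz hr C ?_)
  intro y hy
  rw [NNReal.dist_eq] at hy ⊢
  rw [Real.dist_eq]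
  exact hC y hy

theorem fc_toNN (f : ℝ≥0 → ℝ≥0) (h : ContinuousOn (fun x => (f x : ℝ)) (Set.Ioi 0)) :
    ContinuousOn (fun x => (f x : ℝ≥0∞)) (Set.Ioi 0) := by
  have h1 : ContinuousOn (fun x => Real.toNNReal (f x : ℝ)) (Set.Ioi 0) :=
    continuous_real_toNNReal.comp_continuousOn h
  have h2 : ContinuousOn f (Set.Ioi 0) := h1.congr (fun x _ => Real.toNNReal_coe.symm)
  exact ENNReal.continuous_coe.comp_continuousOn h2

variable {θ}

theorem fc_phi_lt {s t : ℝ} (h : s < t) : 1 - Real.exp (-s) < 1 - Real.exp (-t) := by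
  have := Real.exp_lt_exp.2 (neg_lt_neg h)
  linarith

theorem fc_phi_pos {t : ℝ} (h : 0 < t) : 0 < 1 - Real.exp (-t) := by
  have := fc_phi_lt h
  rw [neg_zero, Real.exp_zero] at this
  linarith

/-- the density curve multiplied by `1 - e^(-t)` is decreasing -/
theorem fc_L6 (h6 : ∀ lam lam' t t' : ℝ≥0, 0 < t → t ≤ t' →
    (lam' : ℝ) * (1 - Real.exp (-(t' : ℝ))) = lam * (1 - Real.exp (-(t : ℝ))) →
    θ lam t ≤ θ lam' t')
    (L1 : ∀ t, 0 < t → ∀ lam, lam < fcL θ t → θ lam t = 0)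
    (L2 : ∀ t, 0 < t → ∀ lam, fcL θ t < lam → θ lam t ≠ 0)
    {t t' : ℝ≥0} (ht : 0 < t) (htt : t < t') :
    (fcL θ t' : ℝ) * (1 - Real.exp (-(t' : ℝ))) ≤ fcL θ t * (1 - Real.exp (-(t : ℝ))) := by
  by_contra hcon
  rw [not_le] at hcon
  have ht' : 0 < t' := ht.trans htt
  have p1 : 0 < 1 - Real.exp (-(t : ℝ)) := fc_phi_pos (NNReal.coe_pos.2 ht)
  have p2 : 0 < 1 - Real.exp (-(t' : ℝ)) := fc_phi_pos (NNReal.coe_pos.2 ht')
  have h1 : (fcL θ t : ℝ) <
      (fcL θ t' : ℝ) * (1 - Real.exp (-(t' : ℝ))) / (1 - Real.exp (-(t : ℝ))) := by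
    rw [lt_div_iff₀ p1]
    exact hcon
  obtain ⟨x, hx1, hx2⟩ := exists_between h1
  have hx0 : 0 ≤ x := (NNReal.coe_nonneg _).trans hx1.le
  rw [lt_div_iff₀ p1] at hx2
  have hy0 : 0 ≤ x * (1 - Real.exp (-(t : ℝ))) / (1 - Real.exp (-(t' : ℝ))) := by positivity
  have hy : x * (1 - Real.exp (-(t : ℝ))) / (1 - Real.exp (-(t' : ℝ))) < fcL θ t' := by
    rw [div_lt_iff₀ p2]
    exact hx2
  have e1 : θ ⟨x, hx0⟩ t ≠ 0 := L2 t ht _ (by
    rw [← NNReal.coe_lt_coe]
    exact hx1)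
  have e2 : θ ⟨x * (1 - Real.exp (-(t : ℝ))) / (1 - Real.exp (-(t' : ℝ))), hy0⟩ t' = 0 :=
    L1 t' ht' _ (by
      rw [← NNReal.coe_lt_coe]
      exact hy)
  have e3 := h6 ⟨x, hx0⟩ ⟨x * (1 - Real.exp (-(t : ℝ))) / (1 - Real.exp (-(t' : ℝ))), hy0⟩ t t'
    ht htt.le (by
      show x * (1 - Real.exp (-(t : ℝ))) / (1 - Real.exp (-(t' : ℝ))) *
        (1 - Real.exp (-(t' : ℝ))) = x * (1 - Real.exp (-(t : ℝ)))
      exact div_mul_cancel₀ _ p2.ne')
  rw [e2] at e3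
  exact e1 (le_antisymm e3 zero_le)

/-- `lam (1 - e^(-T lam))` is increasing -/
theorem fc_T6 (h6 : ∀ lam lam' t t' : ℝ≥0, 0 < t → t ≤ t' →
    (lam' : ℝ) * (1 - Real.exp (-(t' : ℝ))) = lam * (1 - Real.exp (-(t : ℝ))) →
    θ lam t ≤ θ lam' t')
    (T1 : ∀ lam, 0 < lam → ∀ t, t < fcT θ lam → θ lam t = 0)
    (T2 : ∀ lam, 0 < lam → ∀ t, fcT θ lam < t → θ lam t ≠ 0)
    {lam lam' : ℝ≥0} (hl : 0 < lam) (hll : lam ≤ lam') :
    (lam : ℝ) * (1 - Real.exp (-(fcT θ lam : ℝ))) ≤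
      lam' * (1 - Real.exp (-(fcT θ lam' : ℝ))) := by
  by_contra hcon
  rw [not_le] at hcon
  have hl' : 0 < lam' := hl.trans_le hll
  have hlr : (0 : ℝ) < lam := NNReal.coe_pos.2 hl
  have hllr : (lam : ℝ) ≤ lam' := NNReal.coe_le_coe.2 hll
  -- choose `t`
  have hc : Continuous (fun t : ℝ => (lam' : ℝ) * (1 - Real.exp (-t))) := by fun_prop
  have hev : ∀ᶠ t in nhds (fcT θ lam' : ℝ), (lam' : ℝ) * (1 - Real.exp (-t)) <
      (lam : ℝ) * (1 - Real.exp (-(fcT θ lam : ℝ))) :=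
    hc.continuousAt.eventually_lt continuousAt_const hcon
  obtain ⟨r, hr, hball⟩ := Metric.eventually_nhds_iff.1 hev
  have ht0 : (0 : ℝ) < (fcT θ lam' : ℝ) + r / 2 := by
    have := NNReal.coe_nonneg (fcT θ lam')
    linarith
  have hb := hball (y := (fcT θ lam' : ℝ) + r / 2) (by
    rw [Real.dist_eq, add_sub_cancel_left, abs_of_pos (by linarith)]
    linarith)
  obtain ⟨t, ht⟩ : ∃ t : ℝ≥0, (t : ℝ) = (fcT θ lam' : ℝ) + r / 2 := ⟨⟨_, ht0.le⟩, rfl⟩
  rw [← ht] at hb ht0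
  have htp : 0 < t := NNReal.coe_pos.1 ht0
  have hθ : θ lam' t ≠ 0 := T2 lam' hl' t (by
    rw [← NNReal.coe_lt_coe, ht]
    linarith)
  have p1 : 0 < 1 - Real.exp (-(t : ℝ)) := fc_phi_pos ht0
  obtain ⟨y, hy⟩ : ∃ y : ℝ, y = (lam' : ℝ) * (1 - Real.exp (-(t : ℝ))) / lam := ⟨_, rfl⟩
  have hy1 : y < 1 - Real.exp (-(fcT θ lam : ℝ)) := by
    rw [hy, div_lt_iff₀ hlr]
    linarith
  have hy2 : 1 - Real.exp (-(t : ℝ)) ≤ y := by
    rw [hy, le_div_iff₀ hlr]
    nlinarith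
  have hy3 : 0 < 1 - y := by
    have := Real.exp_pos (-(fcT θ lam : ℝ))
    linarith
  have ht1 : (t : ℝ) ≤ -Real.log (1 - y) := by
    rw [le_neg]
    rw [← Real.log_exp (-(t : ℝ))]
    exact Real.log_le_log hy3 (by linarith)
  obtain ⟨t', ht'⟩ : ∃ t' : ℝ≥0, (t' : ℝ) = -Real.log (1 - y) :=
    ⟨⟨_, ht0.le.trans ht1⟩, rfl⟩
  have hexp : Real.exp (-(t' : ℝ)) = 1 - y := by
    rw [ht', neg_neg, Real.exp_log hy3]
  have e1 := h6 lam' lam t t' htp (by
    rw [← NNReal.coe_le_coe, ht']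
    exact ht1) (by
    rw [hexp, hy]
    field_simp
    ring)
  have e2 : θ lam t' = 0 := T1 lam hl t' (by
    rw [← NNReal.coe_lt_coe]
    by_contra hge
    rw [not_lt] at hge
    have h7 := Real.exp_le_exp.2 (neg_le_neg hge)
    rw [hexp] at h7
    linarith)
  rw [e2] at e1
  exact hθ (le_antisymm e1 zero_le)

end

theorem fc_real : S_REAL := by
  intro θ h1 h2 h3 h4 h5 h6 h7
  have hTg := fun (lam : ℝ≥0) (hl : 0 < lam) => fc_real_gen {t | θ lam t = 0}
    (fun x y hxy hy => le_antisymm ((h1 lam x y hxy).trans (le_of_eq hy)) zero_le)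
    (h3 lam hl) (h5 lam 0 (by rw [mul_zero]; exact one_pos))
  have hLg := fun (t : ℝ≥0) (ht : 0 < t) => fc_real_gen {lam | θ lam t = 0}
    (fun x y hxy hy => by
      rcases eq_or_lt_of_le (zero_le : 0 ≤ x) with hx | hx
      · rw [← hx]
        exact h5 0 t (by rw [zero_mul]; exact one_pos)
      · exact le_antisymm ((h2 x y t hx hxy).trans (le_of_eq hy)) zero_le)
    (by
      obtain ⟨lam, -, hlam⟩ := h4 t ht
      exact ⟨lam, hlam⟩)
    (h5 0 t (by rw [zero_mul]; exact one_pos))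
  have hTs : ∀ lam, 0 < lam →
      (⨆ (t : ℝ≥0) (_ : θ lam t = 0), (t : ℝ≥0∞)) = (fcT θ lam : ℝ≥0∞) :=
    fun lam hl => (hTg lam hl).1
  have T1 : ∀ lam, 0 < lam → ∀ t, t < fcT θ lam → θ lam t = 0 := fun lam hl => (hTg lam hl).2.1
  have T2 : ∀ lam, 0 < lam → ∀ t, fcT θ lam < t → θ lam t ≠ 0 := fun lam hl => (hTg lam hl).2.2
  have hLs : ∀ t, 0 < t →
      (⨆ (lam : ℝ≥0) (_ : θ lam t = 0), (lam : ℝ≥0∞)) = (fcL θ t : ℝ≥0∞) :=
    fun t ht => (hLg t ht).1
  have L1 : ∀ t, 0 < t → ∀ lam, lam < fcL θ t → θ lam t = 0 := fun t ht => (hLg t ht).2.1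
  have L2 : ∀ t, 0 < t → ∀ lam, fcL θ t < lam → θ lam t ≠ 0 := fun t ht => (hLg t ht).2.2
  clear hTg hLg
  have hhalf : ∀ x : ℝ≥0, 0 < x → x * (1 / (2 * x)) < 1 := by
    intro x hx
    have h8 : x * (1 / (2 * x)) = 1 / 2 := by
      field_simp
    rw [h8]
    exact NNReal.half_lt_self one_ne_zero
  have Tpos : ∀ lam, 0 < lam → 0 < fcT θ lam := by
    intro lam hl
    by_contra hcon
    have h8 : fcT θ lam = 0 := le_antisymm (not_lt.1 hcon) zero_le
    refine T2 lam hl (1 / (2 * lam)) ?_ (h5 lam _ (hhalf lam hl))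
    rw [h8]
    positivity
  have Lpos : ∀ t, 0 < t → 0 < fcL θ t := by
    intro t ht
    by_contra hcon
    have h8 : fcL θ t = 0 := le_antisymm (not_lt.1 hcon) zero_le
    refine L2 t ht (1 / (2 * t)) ?_ (h5 _ t (by rw [mul_comm]; exact hhalf t ht))
    rw [h8]
    positivity
  have Tanti : ∀ lam lam', 0 < lam → lam ≤ lam' → fcT θ lam' ≤ fcT θ lam := by
    intro lam lam' hl hll
    by_contra hcon
    obtain ⟨t, ht1, ht2⟩ := exists_between (not_le.1 hcon)
    have e1 := T1 lam' (hl.trans_le hll) t ht2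
    have e2 := h2 lam lam' t hl hll
    rw [e1] at e2
    exact T2 lam hl t ht1 (le_antisymm e2 zero_le)
  have Lanti : ∀ t t', 0 < t → t ≤ t' → fcL θ t' ≤ fcL θ t := by
    intro t t' ht htt
    by_contra hcon
    obtain ⟨lam, hl1, hl2⟩ := exists_between (not_le.1 hcon)
    have e1 := L1 t' (ht.trans_le htt) lam hl2
    have e2 := h1 lam t t' htt
    rw [e1] at e2
    exact L2 t ht lam hl1 (le_antisymm e2 zero_le)
  have Lstrict : ∀ t t', 0 < t → t < t' → fcL θ t' < fcL θ t := by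
    intro t t' ht htt
    have e1 := fc_L6 h6 L1 L2 ht htt
    have p1 : 0 < 1 - Real.exp (-(t : ℝ)) := fc_phi_pos (NNReal.coe_pos.2 ht)
    have p2 : 1 - Real.exp (-(t : ℝ)) < 1 - Real.exp (-(t' : ℝ)) :=
      fc_phi_lt (NNReal.coe_lt_coe.2 htt)
    have p3 : (0 : ℝ) < fcL θ t := NNReal.coe_pos.2 (Lpos t ht)
    rw [← NNReal.coe_lt_coe]
    by_contra hcon
    rw [not_lt] at hcon
    have e2 : (fcL θ t : ℝ) * (1 - Real.exp (-(t' : ℝ))) ≤
        fcL θ t' * (1 - Real.exp (-(t' : ℝ))) :=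
      mul_le_mul_of_nonneg_right hcon (by linarith)
    have e3 : (fcL θ t : ℝ) * (1 - Real.exp (-(t : ℝ))) <
        fcL θ t * (1 - Real.exp (-(t' : ℝ))) := mul_lt_mul_of_pos_left p2 p3
    linarith
  have Tstrict : ∀ lam lam', 0 < lam → lam < lam' → fcT θ lam' < fcT θ lam := by
    intro lam lam' hl hll
    have hT := Tpos lam hl
    obtain ⟨K, ε0, hK, hε0, hε0a, hKε⟩ := h7 (min lam (fcT θ lam)) (max lam (fcT θ lam + 1))
      (lt_min hl hT) ((min_le_left _ _).trans (le_max_left _ _))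
    obtain ⟨ε, hε, hε1, hε2, hε3⟩ : ∃ ε : ℝ≥0, 0 < ε ∧ ε ≤ ε0 ∧ ε ≤ 1 ∧ K * ε ≤ lam' - lam := by
      refine ⟨min (min ε0 1) ((lam' - lam) / K), ?_, ?_, ?_, ?_⟩
      · exact lt_min (lt_min hε0 one_pos) (div_pos (tsub_pos_of_lt hll) hK)
      · exact (min_le_left _ _).trans (min_le_left _ _)
      · exact (min_le_left _ _).trans (min_le_right _ _)
      · calc K * min (min ε0 1) ((lam' - lam) / K) ≤ K * ((lam' - lam) / K) := by
              gcongr
              exact min_le_right _ _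
          _ = lam' - lam := mul_div_cancel₀ _ hK.ne'
    have hεT : ε < fcT θ lam := (hε1.trans_lt hε0a).trans_le (min_le_right _ _)
    have e1 := hKε lam (fcT θ lam + ε / 2) ε (min_le_left _ _) (le_max_left _ _)
      ((min_le_right _ _).trans le_self_add)
      (le_trans (by
        gcongr
        exact (NNReal.half_le_self ε).trans hε2) (le_max_right _ _)) hε1
    have e2 : θ lam (fcT θ lam + ε / 2) ≠ 0 := T2 lam hl _ (lt_add_of_pos_right _ (by positivity))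
    have e3 : θ (lam + K * ε) (fcT θ lam + ε / 2 - ε) ≠ 0 := by
      intro h0
      rw [h0] at e1
      exact e2 (le_antisymm e1 zero_le)
    have hlt : fcT θ lam + ε / 2 - ε < fcT θ lam := by
      rw [tsub_lt_iff_right (hεT.le.trans le_self_add)]
      gcongr
      exact NNReal.half_lt_self hε.ne'
    have e4 : fcT θ (lam + K * ε) ≤ fcT θ lam + ε / 2 - ε := by
      by_contra hcon
      exact e3 (T1 _ (hl.trans_le le_self_add) _ (not_le.1 hcon))
    have e5 : fcT θ lam' ≤ fcT θ (lam + K * ε) := Tanti _ _ (hl.trans_le le_self_add) (by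
      calc lam + K * ε ≤ lam + (lam' - lam) := by gcongr
        _ = lam' := add_tsub_cancel_of_le hll.le)
    exact (e5.trans e4).trans_lt hlt
  have Lcont : ContinuousOn (fun t => (fcL θ t : ℝ)) (Set.Ioi 0) := by
    refine fc_cont _ ?_
    intro t0 ht0
    have ht0r : (0 : ℝ) < t0 := NNReal.coe_pos.2 ht0
    obtain ⟨K, ε0, hK, hε0, hε0a, hKε⟩ := h7 (min (t0 / 2) (fcL θ (2 * t0)))
      (max (2 * t0) (fcL θ (t0 / 2) + 1))
      (lt_min (by positivity) (Lpos _ (by positivity)))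
      ((min_le_left _ _).trans (le_trans (by
        rw [← NNReal.coe_le_coe]
        push_cast
        linarith) (le_max_left _ _)))
    have key : ∀ s t : ℝ≥0, t0 / 2 ≤ s → s ≤ t → t ≤ 2 * t0 → t - s ≤ ε0 →
        (fcL θ s : ℝ) ≤ fcL θ t + K * (t - s) := by
      intro s t hs hst ht hts
      by_contra hcon
      rw [not_le] at hcon
      have hs0 : 0 < s := lt_of_lt_of_le (by positivity) hs
      have htpos : 0 < t := hs0.trans_le hst
      have hcon2 : fcL θ t < fcL θ s - K * (t - s) := by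
        rw [lt_tsub_iff_right, ← NNReal.coe_lt_coe]
        push_cast [NNReal.coe_sub hst]
        exact hcon
      obtain ⟨lam, hl1, hl2⟩ := exists_between
        (lt_min hcon2 (lt_add_of_pos_right (fcL θ t) one_pos))
      have hl3 : lam + K * (t - s) < fcL θ s := by
        have := hl2.trans_le (min_le_left _ _)
        rwa [lt_tsub_iff_right] at this
      have hl4 : lam ≤ fcL θ t + 1 := (hl2.trans_le (min_le_right _ _)).le
      have e1 := hKε lam t (t - s)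
        ((min_le_right _ _).trans ((Lanti t (2 * t0) htpos ht).trans hl1.le))
        (hl4.trans (le_trans (by
          gcongr
          exact Lanti (t0 / 2) t (by positivity) (hs.trans hst)) (le_max_right _ _)))
        ((min_le_left _ _).trans (hs.trans hst)) (ht.trans (le_max_left _ _)) hts
      rw [tsub_tsub_cancel_of_le hst, L1 s hs0 _ hl3] at e1
      exact L2 t htpos lam hl1 (le_antisymm e1 zero_le)
    refine ⟨K, min (t0 / 2) ε0, lt_min (by positivity) (NNReal.coe_pos.2 hε0), ?_⟩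
    intro t ht
    have ht1 := ht.trans_le (min_le_left _ _)
    have ht2 := ht.trans_le (min_le_right _ _)
    rw [abs_lt] at ht1 ht2
    have hlow : t0 / 2 ≤ t := by
      rw [← NNReal.coe_le_coe]
      push_cast
      linarith
    have htp : 0 < t := lt_of_lt_of_le (by positivity) hlow
    rcases le_total t t0 with htt | htt
    · have e1 := key t t0 hlow htt (by
        rw [← NNReal.coe_le_coe]
        push_cast
        linarith) (by
        rw [← NNReal.coe_le_coe, NNReal.coe_sub htt]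
        linarith)
      have e2 : (fcL θ t0 : ℝ) ≤ fcL θ t := NNReal.coe_le_coe.2 (Lanti t t0 htp htt)
      have htr : (t : ℝ) ≤ t0 := NNReal.coe_le_coe.2 htt
      rw [abs_of_nonneg (by linarith), abs_of_nonpos (by linarith)]
      linarith
    · have e1 := key t0 t (by
        rw [← NNReal.coe_le_coe]
        push_cast
        linarith) htt (by
        rw [← NNReal.coe_le_coe]
        push_cast
        linarith) (by
        rw [← NNReal.coe_le_coe, NNReal.coe_sub htt]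
        linarith)
      have e2 : (fcL θ t : ℝ) ≤ fcL θ t0 := NNReal.coe_le_coe.2 (Lanti t0 t ht0 htt)
      have htr : (t0 : ℝ) ≤ t := NNReal.coe_le_coe.2 htt
      rw [abs_of_nonpos (by linarith), abs_of_nonneg (by linarith)]
      linarith
  have Tcont : ContinuousOn (fun lam => (fcT θ lam : ℝ)) (Set.Ioi 0) := by
    have hE : ContinuousOn (fun lam => Real.exp (-(fcT θ lam : ℝ))) (Set.Ioi 0) := by
      refine fc_cont _ ?_
      intro x0 hx0
      have hx0r : (0 : ℝ) < x0 := NNReal.coe_pos.2 hx0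
      refine ⟨2 / x0, x0 / 2, by positivity, ?_⟩
      intro x hx
      rw [abs_lt] at hx
      have hxr : (x0 : ℝ) / 2 ≤ x := by linarith
      have hxp : 0 < x := NNReal.coe_pos.1 (lt_of_lt_of_le (by positivity) hxr)
      have hgen : ∀ y z : ℝ≥0, 0 < y → y ≤ z → 0 ≤ Real.exp (-(fcT θ z : ℝ)) -
          Real.exp (-(fcT θ y : ℝ)) ∧
          (y : ℝ) * (Real.exp (-(fcT θ z : ℝ)) - Real.exp (-(fcT θ y : ℝ))) ≤ z - y := by
        intro y z hy hyz
        have a1 : (fcT θ z : ℝ) ≤ fcT θ y := NNReal.coe_le_coe.2 (Tanti y z hy hyz)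
        have a2 := Real.exp_le_exp.2 (neg_le_neg a1)
        have a3 := fc_T6 h6 T1 T2 hy hyz
        have a4 : (y : ℝ) ≤ z := NNReal.coe_le_coe.2 hyz
        have a5 := Real.exp_pos (-(fcT θ z : ℝ))
        refine ⟨by linarith, ?_⟩
        nlinarith [mul_nonneg (sub_nonneg.2 a4) a5.le]
      rw [div_mul_eq_mul_div, le_div_iff₀ hx0r]
      rcases le_total x x0 with hxx | hxx
      · obtain ⟨b1, b2⟩ := hgen x x0 hxp hxx
        have hxxr : (x : ℝ) ≤ x0 := NNReal.coe_le_coe.2 hxx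
        rw [abs_of_nonpos (by linarith), abs_of_nonpos (by linarith)]
        nlinarith
      · obtain ⟨b1, b2⟩ := hgen x0 x hx0 hxx
        have hxxr : (x0 : ℝ) ≤ x := NNReal.coe_le_coe.2 hxx
        rw [abs_of_nonneg (by linarith), abs_of_nonneg (by linarith)]
        nlinarith
    have hlog : ContinuousOn (fun lam => -Real.log (Real.exp (-(fcT θ lam : ℝ)))) (Set.Ioi 0) :=
      (hE.log (fun x _ => (Real.exp_pos _).ne')).neg
    refine hlog.congr (fun x _ => ?_)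
    simp only [Real.log_exp, neg_neg]
  refine ⟨?_, ?_, ?_, ?_, ?_, ?_⟩
  · intro lam hl
    rw [hTs lam hl]
    exact ⟨ENNReal.coe_pos.2 (Tpos lam hl), ENNReal.coe_lt_top⟩
  · intro t ht
    rw [hLs t ht]
    exact ⟨ENNReal.coe_pos.2 (Lpos t ht), ENNReal.coe_lt_top⟩
  · exact (fc_toNN _ Tcont).congr (fun lam hl => hTs lam hl)
  · intro lam hl lam' hl' hll
    show (⨆ (t : ℝ≥0) (_ : θ lam' t = 0), (t : ℝ≥0∞)) < ⨆ (t : ℝ≥0) (_ : θ lam t = 0), (t : ℝ≥0∞)
    rw [hTs lam hl, hTs lam' hl']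
    exact ENNReal.coe_lt_coe.2 (Tstrict lam lam' hl hll)
  · exact (fc_toNN _ Lcont).congr (fun t ht => hLs t ht)
  · intro t ht t' ht' htt
    show (⨆ (lam : ℝ≥0) (_ : θ lam t' = 0), (lam : ℝ≥0∞)) <
      ⨆ (lam : ℝ≥0) (_ : θ lam t = 0), (lam : ℝ≥0∞)
    rw [hLs t ht, hLs t' ht']
    exact ENNReal.coe_lt_coe.2 (Lstrict t t' ht htt)

end Pool.Agent.H349
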