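import Pool.Agent.H979.FR.Stm

set_option autoImplicit false

/-!
# Sums of independent exponential variables
-/

namespace Pool.Agent.H349

open MeasureTheory ProbabilityTheory Finset Pool.Agent.H979.FR
open scoped ENNReal NNReal

theorem fr_exp_mean : ∫⁻ x, ENNReal.ofReal x ∂(expMeasure 1) = 1 := by
  have h1 : expMeasure 1 = volume.withDensity (gammaPDF 1 1) := rfl
  have hm : Measurable (gammaPDF 1 1) := (measurable_gammaPDFReal 1 1).ennreal_ofReal
  rw [h1, lintegral_withDensity_eq_lintegral_mul _ hm ENNReal.measurable_ofReal,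
    ← lintegral_gammaPDF_eq_one (a := 2) (r := 1) two_pos one_pos]
  refine lintegral_congr ?_
  intro x
  rw [Pi.mul_apply, gammaPDF_eq, gammaPDF_eq]
  rcases lt_or_ge x 0 with hx | hx
  · rw [if_neg (not_le.2 hx), if_neg (not_le.2 hx), ENNReal.ofReal_zero, zero_mul]
  · rw [if_pos hx, if_pos hx, ← ENNReal.ofReal_mul (by
      have : 0 < Real.Gamma 1 := Real.Gamma_pos_of_pos one_pos
      positivity)]
    congr 1
    have h2 : Real.Gamma 2 = 1 := Real.Gamma_two
    have h3 : Real.Gamma 1 = 1 := Real.Gamma_one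
    rw [h2, h3]
    norm_num
    ring

theorem fr_exp_meas (T : ℕ) (t : ℝ) :
    MeasurableSet {E : ℕ → ℝ | ∀ n ≤ T, ∑ i ∈ range n, E i ≤ t} := by
  have h1 : {E : ℕ → ℝ | ∀ n ≤ T, ∑ i ∈ range n, E i ≤ t} =
      ⋂ n : ℕ, ⋂ _ : n ≤ T, {E : ℕ → ℝ | ∑ i ∈ range n, E i ≤ t} := by
    ext E
    simp
  rw [h1]
  refine MeasurableSet.iInter fun n => MeasurableSet.iInter fun _ => ?_
  exact measurableSet_le (Finset.measurable_sum _ fun i _ => measurable_pi_apply i)
    measurable_const

theorem fr_exp : S_EXP := by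
  intro T t ht
  have hmeas := fr_exp_meas T t
  rcases Nat.eq_zero_or_pos T with hT | hT
  · subst hT
    have h1 : {E : ℕ → ℝ | ∀ n ≤ 0, ∑ i ∈ range n, E i ≤ t} = Set.univ := by
      ext E
      simp only [nonpos_iff_eq_zero, forall_eq, range_zero, sum_empty, Set.mem_ofPred_eq,
        Set.mem_univ, iff_true]
      simpa using ht
    rw [h1, measure_univ]
    exact ENNReal.half_le_self
  · have hT' : (0 : ℝ) < T := Nat.cast_pos.2 hT
    have ht0 : 0 < t := by linarith
    have hint : ∫⁻ E, ∑ i ∈ range T, ENNReal.ofReal (E i) ∂clockLaw = T := by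
      have hms : ∀ i ∈ range T, Measurable (fun E : ℕ → ℝ => ENNReal.ofReal (E i)) :=
        fun i _ => ENNReal.measurable_ofReal.comp (measurable_pi_apply i)
      rw [lintegral_finsetSum _ hms]
      have h1 : ∀ i ∈ range T, ∫⁻ E : ℕ → ℝ, ENNReal.ofReal (E i) ∂clockLaw = 1 := by
        intro i _
        have h2 := (measurePreserving_eval_infinitePi (fun _ : ℕ => expMeasure 1) i)
        have h3 := h2.lintegral_comp ENNReal.measurable_ofReal
        unfold clockLaw
        exact h3.trans fr_exp_mean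
      rw [Finset.sum_congr rfl h1]
      simp
    have hcompl : {E : ℕ → ℝ | ∀ n ≤ T, ∑ i ∈ range n, E i ≤ t}ᶜ ⊆
        {E : ℕ → ℝ | ENNReal.ofReal t ≤ ∑ i ∈ range T, ENNReal.ofReal (E i)} := by
      intro E hE
      simp only [Set.mem_compl_iff, Set.mem_ofPred_eq, not_forall, not_le] at hE
      obtain ⟨n, hn, hn2⟩ := hE
      calc ENNReal.ofReal t ≤ ENNReal.ofReal (∑ i ∈ range n, E i) :=
            ENNReal.ofReal_le_ofReal hn2.le
        _ ≤ ∑ i ∈ range n, ENNReal.ofReal (E i) := by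
            clear hn2
            clear hn
            induction n with
            | zero => simp
            | succ k ih =>
              rw [sum_range_succ, sum_range_succ]
              exact ENNReal.ofReal_add_le.trans (add_le_add ih le_rfl)
        _ ≤ ∑ i ∈ range T, ENNReal.ofReal (E i) :=
            Finset.sum_le_sum_of_subset (Finset.range_mono hn)
    have hmarkov : clockLaw {E : ℕ → ℝ | ENNReal.ofReal t ≤ ∑ i ∈ range T, ENNReal.ofReal (E i)} ≤
        1 / 2 := by
      have h1 := meas_ge_le_lintegral_div (μ := clockLaw)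
        (f := fun E : ℕ → ℝ => ∑ i ∈ range T, ENNReal.ofReal (E i))
        (Finset.measurable_sum _ fun i _ =>
          ENNReal.measurable_ofReal.comp (measurable_pi_apply i)).aemeasurable
        (ε := ENNReal.ofReal t) (by simpa using ht0) ENNReal.ofReal_ne_top
      rw [hint] at h1
      refine h1.trans ?_
      rw [ENNReal.div_le_iff (by simpa using ht0) ENNReal.ofReal_ne_top]
      have h2 : (T : ℝ≥0∞) = ENNReal.ofReal T := (ENNReal.ofReal_natCast T).symm
      have h3 : (1 / 2 : ℝ≥0∞) = ENNReal.ofReal (1 / 2) := by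
        rw [ENNReal.ofReal_div_of_pos two_pos]
        simp
      rw [h2, h3, ← ENNReal.ofReal_mul (by norm_num)]
      exact ENNReal.ofReal_le_ofReal (by linarith)
    have hle := (measure_mono hcompl).trans hmarkov
    have h5 := prob_add_prob_compl (μ := clockLaw) hmeas
    have h6 : (1 : ℝ≥0∞) ≤
        clockLaw {E : ℕ → ℝ | ∀ n ≤ T, ∑ i ∈ range n, E i ≤ t} + 1 / 2 :=
      h5.symm.le.trans (add_le_add le_rfl hle)
    have h7 : (1 / 2 : ℝ≥0∞) + 1 / 2 = 1 := by
      rw [one_div]
      exact ENNReal.inv_two_add_inv_two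
    have h8 : (1 / 2 : ℝ≥0∞) ≠ ∞ := by simp
    exact (ENNReal.add_le_add_iff_right h8).1 (h7.le.trans h6)

theorem fr_expp : S_EXPP := by
  intro T t ht
  have hT : (0 : ℝ) < (T : ℝ) + 1 := by positivity
  have ha : 0 < t / ((T : ℝ) + 1) := div_pos ht hT
  have hpos : expMeasure 1 (Set.Iic (t / ((T : ℝ) + 1))) ≠ 0 := by
    rw [← ofReal_cdf, cdf_expMeasure_eq one_pos, if_pos ha.le]
    have h1 : Real.exp (-(1 * (t / ((T : ℝ) + 1)))) < 1 := by
      rw [Real.exp_lt_one_iff]
      linarith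
    rw [Ne, ENNReal.ofReal_eq_zero, not_le]
    linarith
  have hsub : Set.pi (range T : Set ℕ) (fun _ : ℕ => Set.Iic (t / ((T : ℝ) + 1))) ⊆
      {E : ℕ → ℝ | ∀ n ≤ T, ∑ i ∈ range n, E i ≤ t} := by
    intro E hE n hn
    have h1 : ∀ i ∈ range n, E i ≤ t / ((T : ℝ) + 1) := by
      intro i hi
      refine hE i ?_
      rw [Finset.mem_coe, Finset.mem_range]
      rw [Finset.mem_range] at hi
      omega
    have h2 := Finset.sum_le_card_nsmul _ _ _ h1
    rw [card_range, nsmul_eq_mul] at h2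
    refine h2.trans ?_
    have h3 : (n : ℝ) ≤ T := Nat.cast_le.2 hn
    calc (n : ℝ) * (t / ((T : ℝ) + 1)) ≤ ((T : ℝ) + 1) * (t / ((T : ℝ) + 1)) :=
          mul_le_mul_of_nonneg_right (by linarith) ha.le
      _ = t := mul_div_cancel₀ _ hT.ne'
  intro h0
  have h1 := measure_mono_null hsub h0
  have h2 : clockLaw (Set.pi (range T : Set ℕ) (fun _ : ℕ => Set.Iic (t / ((T : ℝ) + 1)))) =
      ∏ _i ∈ range T, expMeasure 1 (Set.Iic (t / ((T : ℝ) + 1))) :=
    Measure.infinitePi_pi (fun _ : ℕ => expMeasure 1) (fun i _ => measurableSet_Iic)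
  rw [h2, Finset.prod_eq_zero_iff] at h1
  obtain ⟨i, -, hi⟩ := h1
  exact hpos hi

end Pool.Agent.H349
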