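import Pool.Agent.H867.FT.Gen5

/-!
# FTU DQE: `Dq q C = 1 / C ^ (q - 1)`
-/

set_option autoImplicit false
set_option linter.all false

namespace Pool.Agent.H349.FTDQE

open Pool.Agent.H867.FT

/-- the localization at a prime of height one -/
theorem isDVR (P : Type) [CommRing P] [IsDomain P] [IsNoetherianRing P] [IsIntegrallyClosed P]
    (𝔭 : Ideal P) [h𝔭 : 𝔭.IsPrime] (hh : 𝔭.height = 1) :
    IsDiscreteValuationRing (Localization.AtPrime 𝔭) := by
  have hdim : ringKrullDim (Localization.AtPrime 𝔭) = 1 := by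
    rw [IsLocalization.AtPrime.ringKrullDim_eq_height 𝔭 (Localization.AtPrime 𝔭), hh]
    rfl
  have : IsNoetherianRing (Localization.AtPrime 𝔭) :=
    IsLocalization.isNoetherianRing 𝔭.primeCompl _ inferInstance
  have hic : IsIntegrallyClosed (Localization.AtPrime 𝔭) :=
    isIntegrallyClosed_of_isLocalization (R := P) (S := Localization.AtPrime 𝔭) 𝔭.primeCompl
      (Ideal.primeCompl_le_nonZeroDivisors 𝔭)
  have : Ring.KrullDimLE 1 (Localization.AtPrime 𝔭) := Ring.krullDimLE_iff.2 (le_of_eq hdim)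
  have hnf : ¬ IsField (Localization.AtPrime 𝔭) := by
    intro hf
    have := ringKrullDim_eq_zero_of_isField hf
    rw [hdim] at this
    exact one_ne_zero this
  have h : (IsIntegrallyClosed (Localization.AtPrime 𝔭) ∧
      ∃! Q : Ideal (Localization.AtPrime 𝔭), Q ≠ ⊥ ∧ Q.IsPrime) ↔
      IsDiscreteValuationRing (Localization.AtPrime 𝔭) :=
    (IsDiscreteValuationRing.TFAE (Localization.AtPrime 𝔭) hnf).out 3 0
  refine h.1 ⟨hic, IsLocalRing.maximalIdeal _, ⟨?_, inferInstance⟩, ?_⟩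
  · exact fun h => hnf (IsLocalRing.isField_iff_maximalIdeal_eq.2 h)
  · rintro Q ⟨hQ, hQ'⟩
    exact IsLocalRing.eq_maximalIdeal (hQ'.isMaximal_of_ne_bot hQ)

section

variable {S K : Type} [CommRing S] [IsDomain S] [IsNoetherianRing S] [IsIntegrallyClosed S]
  [Field K] [Algebra S K] [IsFractionRing S K]

/-- comparability in the ring, up to elements outside of `𝔭` -/
theorem cmpS (𝔭 : Ideal S) [h𝔭 : 𝔭.IsPrime] (hh : 𝔭.height = 1) (a b : S) :
    ∃ s : S, s ∉ 𝔭 ∧ ∃ r : S, s * a = r * b ∨ s * b = r * a := by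
  have hdvr := isDVR S 𝔭 hh
  have hinj : Function.Injective (algebraMap S (Localization.AtPrime 𝔭)) :=
    IsLocalization.injective (Localization.AtPrime 𝔭) (Ideal.primeCompl_le_nonZeroDivisors 𝔭)
  have key : ∀ a b : S, algebraMap S (Localization.AtPrime 𝔭) a ∣
      algebraMap S (Localization.AtPrime 𝔭) b → ∃ s : S, s ∉ 𝔭 ∧ ∃ r : S, s * b = r * a := by
    rintro a b ⟨v, hv⟩
    obtain ⟨⟨r, s⟩, hrs⟩ := IsLocalization.surj 𝔭.primeCompl v
    refine ⟨s, s.2, r, hinj ?_⟩
    have hrs' : v * algebraMap S (Localization.AtPrime 𝔭) (s : S) =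
      algebraMap S (Localization.AtPrime 𝔭) r := hrs
    rw [map_mul, map_mul, hv, ← hrs']
    ring
  rcases ValuationRing.dvd_total (algebraMap S (Localization.AtPrime 𝔭) a)
    (algebraMap S (Localization.AtPrime 𝔭) b) with h | h
  · obtain ⟨s, hs, r, hr⟩ := key a b h
    exact ⟨s, hs, r, Or.inr hr⟩
  · obtain ⟨s, hs, r, hr⟩ := key b a h
    exact ⟨s, hs, r, Or.inl hr⟩

/-- comparability in the field of fractions -/
theorem cmpK (𝔭 : Ideal S) [h𝔭 : 𝔭.IsPrime] (hh : 𝔭.height = 1) (a b : K) :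
    ∃ s : S, s ∉ 𝔭 ∧ ∃ r : S, s • a = r • b ∨ s • b = r • a := by
  obtain ⟨x, y, hy, rfl⟩ := IsFractionRing.div_surjective (A := S) a
  obtain ⟨z, w, hw, rfl⟩ := IsFractionRing.div_surjective (A := S) b
  have hy0 : algebraMap S K y ≠ 0 :=
    IsFractionRing.to_map_ne_zero_of_mem_nonZeroDivisors hy
  have hw0 : algebraMap S K w ≠ 0 :=
    IsFractionRing.to_map_ne_zero_of_mem_nonZeroDivisors hw
  obtain ⟨s, hs, r, h⟩ := cmpS 𝔭 hh (x * w) (z * y)
  refine ⟨s, hs, r, ?_⟩
  rcases h with h | h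
  · left
    have h' := congrArg (algebraMap S K) h
    simp only [map_mul] at h'
    rw [Algebra.smul_def, Algebra.smul_def, ← mul_div_assoc, ← mul_div_assoc,
      div_eq_div_iff hy0 hw0]
    linear_combination h'
  · right
    have h' := congrArg (algebraMap S K) h
    simp only [map_mul] at h'
    rw [Algebra.smul_def, Algebra.smul_def, ← mul_div_assoc, ← mul_div_assoc,
      div_eq_div_iff hw0 hy0]
    linear_combination h'

/-- a finitely generated fractional ideal is generated by one element at `𝔭` -/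
theorem gen (𝔭 : Ideal S) [h𝔭 : 𝔭.IsPrime] (hh : 𝔭.height = 1) (C : Submodule S K) (hC : C.FG) :
    ∃ y₀ ∈ C, ∃ s : S, s ∉ 𝔭 ∧ ∀ y ∈ C, ∃ r : S, s • y = r • y₀ := by
  refine Submodule.fg_induction (motive := fun (N : Submodule S K) _ => ∃ y₀ ∈ N, ∃ s : S, s ∉ 𝔭 ∧
    ∀ y ∈ N, ∃ r : S, s • y = r • y₀) ?_ ?_ C hC
  · intro x
    refine ⟨x, Submodule.mem_span_singleton_self x, 1, ?_, ?_⟩
    · exact fun h => h𝔭.ne_top ((Ideal.eq_top_iff_one _).2 h)
    · intro y hy
      obtain ⟨r, rfl⟩ := Submodule.mem_span_singleton.1 hy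
      exact ⟨r, one_smul _ _⟩
  · rintro N₁ N₂ - - ⟨y₁, hy₁, s₁, hs₁, h₁⟩ ⟨y₂, hy₂, s₂, hs₂, h₂⟩
    obtain ⟨s, hs, r, h⟩ := cmpK 𝔭 hh y₁ y₂
    have hsss : s * s₁ * s₂ ∉ 𝔭 := by
      intro hm
      rcases h𝔭.mem_or_mem hm with h3 | h3
      · rcases h𝔭.mem_or_mem h3 with h4 | h4
        · exact hs h4
        · exact hs₁ h4
      · exact hs₂ h3
    rcases h with h | h
    · refine ⟨y₂, Submodule.mem_sup_right hy₂, s * s₁ * s₂, hsss, ?_⟩
      intro y hy
      obtain ⟨a, ha, b, hb, rfl⟩ := Submodule.mem_sup.1 hy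
      obtain ⟨ra, hra⟩ := h₁ a ha
      obtain ⟨rb, hrb⟩ := h₂ b hb
      refine ⟨s₂ * ra * r + s * s₁ * rb, ?_⟩
      have e1 : (s * s₁ * s₂) • a = (s₂ * ra * r) • y₂ := by
        calc (s * s₁ * s₂) • a = (s * s₂) • (s₁ • a) := by
              rw [smul_smul]; ring_nf
          _ = (s₂ * ra) • (s • y₁) := by
              rw [hra, smul_smul, smul_smul]; ring_nf
          _ = (s₂ * ra * r) • y₂ := by rw [h, smul_smul]
      have e2 : (s * s₁ * s₂) • b = (s * s₁ * rb) • y₂ := by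
        rw [mul_smul (s * s₁) s₂, hrb, smul_smul]
      rw [smul_add, e1, e2, add_smul]
    · refine ⟨y₁, Submodule.mem_sup_left hy₁, s * s₁ * s₂, hsss, ?_⟩
      intro y hy
      obtain ⟨a, ha, b, hb, rfl⟩ := Submodule.mem_sup.1 hy
      obtain ⟨ra, hra⟩ := h₁ a ha
      obtain ⟨rb, hrb⟩ := h₂ b hb
      refine ⟨s * s₂ * ra + s₁ * rb * r, ?_⟩
      have e1 : (s * s₁ * s₂) • a = (s * s₂ * ra) • y₁ := by
        calc (s * s₁ * s₂) • a = (s * s₂) • (s₁ • a) := by
              rw [smul_smul]; ring_nf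
          _ = (s * s₂ * ra) • y₁ := by rw [hra, smul_smul]
      have e2 : (s * s₁ * s₂) • b = (s₁ * rb * r) • y₁ := by
        calc (s * s₁ * s₂) • b = (s * s₁) • (s₂ • b) := by rw [smul_smul]
          _ = (s₁ * rb) • (s • y₂) := by
              rw [hrb, smul_smul, smul_smul]; ring_nf
          _ = (s₁ * rb * r) • y₁ := by rw [h, smul_smul]
      rw [smul_add, e1, e2, add_smul]

/-- the powers -/
theorem genPow (C : Submodule S K) (y₀ : K) (s : S) (h : ∀ y ∈ C, ∃ r : S, s • y = r • y₀)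
    (n : ℕ) : ∀ c ∈ C ^ n, ∃ r : S, (s ^ n) • c = r • y₀ ^ n := by
  induction n with
  | zero =>
    intro c hc
    rw [pow_zero] at hc
    obtain ⟨r, hr⟩ := Submodule.mem_one.1 hc
    refine ⟨r, ?_⟩
    rw [pow_zero, pow_zero, one_smul, Algebra.smul_def, mul_one, hr]
  | succ n ih =>
    intro c hc
    rw [pow_succ] at hc
    refine Submodule.mul_induction_on hc ?_ ?_
    · intro a ha b hb
      obtain ⟨r₁, h₁⟩ := ih a ha
      obtain ⟨r₂, h₂⟩ := h b hb
      refine ⟨r₁ * r₂, ?_⟩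
      rw [Algebra.smul_def] at h₁ h₂ ⊢
      rw [Algebra.smul_def] at h₁ h₂ ⊢
      simp only [map_mul, map_pow] at h₁ h₂ ⊢
      calc algebraMap S K s ^ (n + 1) * (a * b)
          = (algebraMap S K s ^ n * a) * (algebraMap S K s * b) := by ring
        _ = _ := by rw [h₁, h₂]; ring
    · rintro a b ⟨r₁, h₁⟩ ⟨r₂, h₂⟩
      exact ⟨r₁ + r₂, by rw [smul_add, h₁, h₂, add_smul]⟩

end

theorem dqe (h : Pool.Agent.H867.FT.S_KRU) : Pool.Agent.H867.FT.S_DQE := by
  intro q S K _ _ _ _ _ _ _ C hq hC hfg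
  apply le_antisymm
  · intro β hβ
    rw [Submodule.mem_div_iff_forall_mul_mem]
    intro c hc
    rw [Submodule.mem_one]
    obtain ⟨g, hg⟩ := h S K (β * c) (by
      intro 𝔭 h𝔭 hh
      haveI := h𝔭
      obtain ⟨y₀, hy₀, s, hs, hgen⟩ := gen 𝔭 hh C hfg
      have hs0 : s ≠ 0 := by
        rintro rfl
        exact hs 𝔭.zero_mem
      have hsK : algebraMap S K s ≠ 0 := by
        intro h0
        exact hs0 ((IsFractionRing.injective S K) (by rw [h0, map_zero]))
      have hy0 : y₀ ≠ 0 := by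
        rintro rfl
        apply hC
        rw [Submodule.eq_bot_iff]
        intro y hy
        obtain ⟨r, hr⟩ := hgen y hy
        rw [smul_zero, Algebra.smul_def] at hr
        exact (mul_eq_zero.1 hr).resolve_left hsK
      obtain ⟨r, hr⟩ := hgen _ (hβ y₀ hy₀)
      obtain ⟨r', hr'⟩ := genPow C y₀ s hgen (q - 1) c hc
      refine ⟨s * s ^ (q - 1), ?_, r * r', ?_⟩
      · intro hm
        rcases h𝔭.mem_or_mem hm with h1 | h1
        · exact hs h1
        · exact hs (h𝔭.mem_of_pow_mem _ h1)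
      · rw [Algebra.smul_def, Algebra.smul_def] at hr hr'
        have e1 : algebraMap S K s * (β * y₀ ^ (q - 1)) = algebraMap S K r := by
          apply mul_right_cancel₀ hy0
          rw [← hr]
          have : y₀ ^ q = y₀ ^ (q - 1) * y₀ := by
            rw [← pow_succ]
            congr 1
            omega
          rw [this]
          ring
        rw [map_mul, map_mul, ← e1]
        calc algebraMap S K s * algebraMap S K (s ^ (q - 1)) * (β * c)
            = algebraMap S K s * β * (algebraMap S K (s ^ (q - 1)) * c) := by ring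
          _ = _ := by rw [hr']; ring)
    exact ⟨g, hg.symm⟩
  · intro β hβ
    rw [Submodule.mem_div_iff_forall_mul_mem] at hβ
    intro y hy
    obtain ⟨r, hr⟩ := Submodule.mem_one.1 (hβ (y ^ (q - 1)) (Submodule.pow_mem_pow C hy (q - 1)))
    have : y ^ q = y ^ (q - 1) * y := by
      rw [← pow_succ]
      congr 1
      omega
    rw [this, ← mul_assoc, ← hr, ← Algebra.smul_def]
    exact C.smul_mem r hy

end Pool.Agent.H349.FTDQE
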